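import Pool.Agent.Y258.SX.XStmts
import Pool.Agent.Y496.SD.C5b

set_option autoImplicit false

/-! # (XQ) expected contribution of the accidental relations -/

namespace Pool.Agent.Y46.SX

open Finset Pool.Agent.H470D4 Pool.Agent.Y258 Pool.Agent.Y496.SD
open Pool.Agent.H935R2.PS (La uu nn dl mx Suit)

theorem xq (h5 : St_C5) (h6a : St_A6a) : St_XQ := by
  intro n
  obtain ⟨Ca, hCa0, hCa⟩ := h6a (n + 3)
  refine ⟨⌈4 * 2 ^ (n + 2) * Ca * Ca⌉₊, ?_⟩
  intro q _ h8 M B c hc Al hB r l l' hW hWr hD' ω₀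
  classical
  have hq : (0:ℝ) < q := by exact_mod_cast (by omega : 0 < q)
  set D' := dm M B l' r with hD'def
  set e := dm M B (mxv l l') r with he
  have heD : e ≤ D' := by
    rw [he, hD'def]
    unfold dm
    have : ∑ a, l' a ≤ ∑ a, mxv l l' a := Finset.sum_le_sum fun a _ => le_max_right _ _
    omega
  have hcard : Fintype.card (Option (Fin (n+2))) = n + 3 := by
    rw [Fintype.card_option, Fintype.card_fin]
  set HH : Finset (Option (Fin (n+2)) → ZMod q) := univ.filter (fun H => H none ≠ 0) with hHH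
  -- each term
  have hterm : ∀ H H' : Option (Fin (n+2)) → ZMod q,
      EE Al 0 (r * M) (fun ω => ii (OO l l' H H' ≠ 0 ∧ OR c ω (mxv l l') r (OO l l' H H')) *
        ((q:ℝ) ^ e * (wm H * wm H'))) ω₀ ≤ 4 * 2 ^ (n + 2) * (wm H * wm H') := by
    intro H H'
    have hwm := wm_nonneg H
    have hwm' := wm_nonneg H'
    have h0 : 0 ≤ (q:ℝ) ^ e * (wm H * wm H') := by positivity
    have e1 : (fun ω : Pth q B => ii (OO l l' H H' ≠ 0 ∧ OR c ω (mxv l l') r (OO l l' H H')) *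
        ((q:ℝ) ^ e * (wm H * wm H'))) = fun ω => ((q:ℝ) ^ e * (wm H * wm H')) *
          ii (OO l l' H H' ≠ 0 ∧ OR c ω (mxv l l') r (OO l l' H H')) := by
      funext ω
      rw [mul_comm]
    rw [e1, EE_const_mul]
    by_cases hOO : OO l l' H H' = 0
    · have h1 : EE Al 0 (r * M) (fun ω : Pth q B =>
          ii (OO l l' H H' ≠ 0 ∧ OR c ω (mxv l l') r (OO l l' H H'))) ω₀ ≤ 0 := by
        refine (EE_mono Al 0 (r * M) (g := fun _ => (0:ℝ)) fun ω _ => ?_).trans (le_of_eq ?_)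
        · rw [ii_false (fun h => h.1 hOO)]
        · exact EE_dep Al (Al_ne (by omega) Al hB) 0 (r * M) (g := fun _ => (0:ℝ))
            (fun _ _ _ => rfl) ω₀
      have h2 := mul_le_mul_of_nonneg_left h1 h0
      rw [mul_zero] at h2
      refine h2.trans ?_
      positivity
    · have h1 : EE Al 0 (r * M) (fun ω : Pth q B =>
          ii (OO l l' H H' ≠ 0 ∧ OR c ω (mxv l l') r (OO l l' H H'))) ω₀ ≤
          4 * (2 / (q:ℝ)) ^ e := by
        refine (EE_mono Al 0 (r * M) (g := fun ω : Pth q B =>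
          ii (OR c ω (mxv l l') r (OO l l' H H'))) fun ω _ => ii_mono (fun h => h.2)).trans ?_
        exact h5 n q h8 M B c hc Al hB (mxv l l') r (OO l l' H H') hOO hW hWr ω₀
      calc ((q:ℝ) ^ e * (wm H * wm H')) * EE Al 0 (r * M) (fun ω : Pth q B =>
          ii (OO l l' H H' ≠ 0 ∧ OR c ω (mxv l l') r (OO l l' H H'))) ω₀
          ≤ ((q:ℝ) ^ e * (wm H * wm H')) * (4 * (2 / (q:ℝ)) ^ e) :=
            mul_le_mul_of_nonneg_left h1 h0
        _ = 4 * 2 ^ e * (wm H * wm H') := by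
            rw [div_pow]
            field_simp
        _ ≤ 4 * 2 ^ (n + 2) * (wm H * wm H') := by
            have : (2:ℝ) ^ e ≤ 2 ^ (n + 2) :=
              pow_le_pow_right₀ (by norm_num) (heD.trans hD')
            gcongr
  -- the sum
  have hQQ : EE Al 0 (r * M) (fun ω => QQ c ω r l l') ω₀ ≤
      ∑ H ∈ HH, ∑ H' ∈ HH, 4 * 2 ^ (n + 2) * (wm H * wm H') := by
    unfold QQ
    rw [EE_sum]
    refine Finset.sum_le_sum fun H _ => ?_
    rw [EE_sum]
    exact Finset.sum_le_sum fun H' _ => hterm H H'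
  refine hQQ.trans ?_
  have hA := hCa q (by omega) (Option (Fin (n+2))) hcard
  have hwmle : ∑ H ∈ HH, wm H ≤ Ca * (La q : ℝ) ^ (n + 3) :=
    (Finset.sum_le_sum_of_subset_of_nonneg (Finset.subset_univ _)
      (fun H _ _ => wm_nonneg H)).trans hA
  have hsum0 : 0 ≤ ∑ H ∈ HH, wm H := Finset.sum_nonneg fun H _ => wm_nonneg H
  calc ∑ H ∈ HH, ∑ H' ∈ HH, 4 * 2 ^ (n + 2) * (wm H * wm H')
      = 4 * 2 ^ (n + 2) * ((∑ H ∈ HH, wm H) * (∑ H ∈ HH, wm H)) := by
        rw [Finset.sum_mul_sum, Finset.mul_sum]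
        refine Finset.sum_congr rfl fun H _ => ?_
        rw [Finset.mul_sum]
    _ ≤ 4 * 2 ^ (n + 2) * ((Ca * (La q : ℝ) ^ (n + 3)) * (Ca * (La q : ℝ) ^ (n + 3))) := by
        gcongr
    _ = (4 * 2 ^ (n + 2) * Ca * Ca) * (La q : ℝ) ^ (2 * n + 6) := by
        have e2 : (La q : ℝ) ^ (2 * n + 6) = (La q : ℝ) ^ (n + 3) * (La q : ℝ) ^ (n + 3) := by
          rw [← pow_add]
          congr 1
          omega
        rw [e2]
        ring
    _ ≤ (⌈4 * 2 ^ (n + 2) * Ca * Ca⌉₊ : ℝ) * (La q : ℝ) ^ (2 * n + 6) := by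
        have := Nat.le_ceil (4 * 2 ^ (n + 2) * Ca * Ca)
        gcongr

theorem xq' : St_XQ := xq c5 Pool.Agent.Y899.SD.A6a

end Pool.Agent.Y46.SX
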